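import Pool.Agent.H458.AR.Cmb
import Pool.Graph.R_pool_sql_team_seeded_63374d34.N498.PP.Lin

/-!
# Project AR (helper458): totally singular subgroups of `(F₂ × F₂) ^ n` and graphs
-/

set_option autoImplicit false

open scoped Classical

namespace Pool.Agent.H294.AR458

open Pool.Agent.H458.AR

noncomputable section

variable {ι : Type}

/-- the first coordinate outside `J₀`, the second one in `J₀` -/
def xc (J₀ : Set ι) (l : ι → ZMod 2 × ZMod 2) (i : ι) : ZMod 2 :=
  if i ∈ J₀ then (l i).2 else (l i).1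

/-- the other coordinate -/
def yc (J₀ : Set ι) (l : ι → ZMod 2 × ZMod 2) (i : ι) : ZMod 2 :=
  if i ∈ J₀ then (l i).1 else (l i).2

theorem xc_add (J₀ : Set ι) (l l' : ι → ZMod 2 × ZMod 2) :
    xc J₀ (l + l') = xc J₀ l + xc J₀ l' := by
  funext i
  unfold xc
  rw [Pi.add_apply, Pi.add_apply]
  split_ifs <;> rfl

theorem yc_add (J₀ : Set ι) (l l' : ι → ZMod 2 × ZMod 2) :
    yc J₀ (l + l') = yc J₀ l + yc J₀ l' := by
  funext i
  unfold yc
  rw [Pi.add_apply, Pi.add_apply]
  split_ifs <;> rfl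

theorem xc_mul_yc (J₀ : Set ι) (l : ι → ZMod 2 × ZMod 2) (i : ι) :
    xc J₀ l i * yc J₀ l i = (l i).1 * (l i).2 := by
  unfold xc yc
  split_ifs
  · rw [mul_comm]
  · rfl

theorem eq_zero_of (J₀ : Set ι) (l : ι → ZMod 2 × ZMod 2) (i : ι) (h1 : xc J₀ l i = 0)
    (h2 : yc J₀ l i = 0) : l i = 0 := by
  unfold xc at h1
  unfold yc at h2
  split_ifs at h1 h2
  · exact Prod.ext h2 h1
  · exact Prod.ext h1 h2

theorem add_eq_zero_iff {a b : ZMod 2} : a + b = 0 ↔ a = b := by
  revert a b
  decide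

/-- the structure of a maximal totally singular subgroup -/
theorem exists_mat [Fintype ι] (Λ : AddSubgroup (ι → ZMod 2 × ZMod 2))
    (hq : ∀ l ∈ Λ, ∑ i, (l i).1 * (l i).2 = 0) (hcard : 2 ^ Fintype.card ι ≤ Nat.card Λ) :
    ∃ (J₀ : Set ι) (L : (ι → ZMod 2) → (ι → ZMod 2 × ZMod 2)) (A : ι → ι → ZMod 2),
      (∀ v, L v ∈ Λ) ∧ (∀ v, xc J₀ (L v) = v) ∧ (∀ l ∈ Λ, ∃ v, L v = l) ∧
      (∀ v i, yc J₀ (L v) i = ∑ j, A i j * v j) := by
  obtain ⟨J₀, hJ₀⟩ := Pool.Agent.N498.PP.lin ι Λ hq
  let Xh : Λ →+ (ι → ZMod 2) := AddMonoidHom.mk' (fun l => xc J₀ l.1) fun l l' => xc_add J₀ _ _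
  have hinj : Function.Injective Xh := by
    rw [injective_iff_map_eq_zero]
    intro l hl
    have h1 : ∀ i, xc J₀ l.1 i = 0 := fun i => congrFun hl i
    apply Subtype.ext
    refine hJ₀ l.1 l.2 ?_ ?_
    · intro i hi
      have h2 := h1 i
      unfold xc at h2
      rwa [if_pos hi] at h2
    · intro i hi
      have h2 := h1 i
      unfold xc at h2
      rwa [if_neg hi] at h2
  have hbij : Function.Bijective Xh := by
    refine hinj.bijective_of_nat_card_le ?_
    rw [Nat.card_eq_fintype_card (α := ι → ZMod 2), Fintype.card_fun, ZMod.card]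
    exact hcard
  let E : Λ ≃+ (ι → ZMod 2) := AddEquiv.ofBijective Xh hbij
  have hE : ∀ v, xc J₀ (E.symm v).1 = v := fun v => E.apply_symm_apply v
  let f : (ι → ZMod 2) →+ (ι → ZMod 2) := AddMonoidHom.mk' (fun v => yc J₀ (E.symm v).1) (by
    intro v w
    have h1 : (E.symm (v + w)).1 = (E.symm v).1 + (E.symm w).1 := by
      rw [map_add]
      rfl
    rw [h1, yc_add])
  let F : (ι → ZMod 2) →ₗ[ZMod 2] (ι → ZMod 2) := f.toZModLinearMap 2
  refine ⟨J₀, fun v => (E.symm v).1, fun i j => F (fun k => if j = k then 1 else 0) i,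
    fun v => (E.symm v).2, hE, ?_, ?_⟩
  · intro l hl
    refine ⟨E ⟨l, hl⟩, ?_⟩
    have h1 := E.symm_apply_apply ⟨l, hl⟩
    exact congrArg Subtype.val h1
  · intro v i
    have h1 : F v i = yc J₀ (E.symm v).1 i := rfl
    have h2 := congrFun (LinearMap.pi_apply_eq_sum_univ F v) i
    rw [h1, Finset.sum_apply] at h2
    rw [h2]
    refine Finset.sum_congr rfl fun j _ => ?_
    rw [Pi.smul_apply, smul_eq_mul, mul_comm]

theorem sum_single_mul [Fintype ι] (i : ι) (g : ι → ZMod 2) :
    ∑ k, (Pi.single i (1 : ZMod 2) : ι → ZMod 2) k * g k = g i := by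
  rw [Finset.sum_eq_single i]
  · rw [Pi.single_eq_same, one_mul]
  · intro k _ hk
    rw [Pi.single_eq_of_ne hk, zero_mul]
  · intro h
    exact absurd (Finset.mem_univ i) h

theorem sum_mul_single [Fintype ι] (i : ι) (g : ι → ZMod 2) :
    ∑ k, g k * (Pi.single i (1 : ZMod 2) : ι → ZMod 2) k = g i := by
  rw [← sum_single_mul i g]
  exact Finset.sum_congr rfl fun k _ => mul_comm _ _

/-- **Part CMB** -/
theorem cmb (h1 : S_GR) (h2 : S_STP) : S_CMB := by
  intro r
  obtain ⟨e, he, m₀, hm₀⟩ := h1 r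
  refine ⟨e, he, m₀, ?_⟩
  intro m hm ι _ Λ hι hq hcard hw j hj
  obtain ⟨J₀, L, A, hLΛ, hLx, hLs, hLy⟩ := exists_mat Λ hq hcard
  have hform : ∀ v : ι → ZMod 2, ∑ i, v i * ∑ j, A i j * v j = 0 := by
    intro v
    rw [← hq (L v) (hLΛ v)]
    refine Finset.sum_congr rfl fun i _ => ?_
    rw [← xc_mul_yc J₀, hLx, hLy]
  have hA1 : ∀ i, A i i = 0 := by
    intro i
    have h3 := hform (Pi.single i 1)
    rw [sum_single_mul i (fun k => ∑ j, A k j * (Pi.single i (1 : ZMod 2) : ι → ZMod 2) j),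
      sum_mul_single] at h3
    exact h3
  have hy2 : ∀ i j k, yc J₀ (L (Pi.single i 1 + Pi.single j 1)) k = A k i + A k j := by
    intro i j k
    rw [hLy]
    have h3 : ∀ l, A k l * (Pi.single i (1 : ZMod 2) + Pi.single j 1 : ι → ZMod 2) l =
        A k l * (Pi.single i (1 : ZMod 2) : ι → ZMod 2) l +
        A k l * (Pi.single j (1 : ZMod 2) : ι → ZMod 2) l := by
      intro l
      rw [Pi.add_apply, mul_add]
    rw [Finset.sum_congr rfl fun l _ => h3 l, Finset.sum_add_distrib, sum_mul_single,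
      sum_mul_single]
  have hA2 : ∀ i j, A i j = A j i := by
    intro i j
    have h3 := hform (Pi.single i 1 + Pi.single j 1)
    have h4 : ∀ k, ∑ l, A k l * (Pi.single i (1 : ZMod 2) + Pi.single j 1 : ι → ZMod 2) l =
        A k i + A k j := by
      intro k
      rw [← hy2 i j k, hLy]
    have h5 : ∀ k, (Pi.single i (1 : ZMod 2) + Pi.single j 1 : ι → ZMod 2) k *
        ∑ l, A k l * (Pi.single i (1 : ZMod 2) + Pi.single j 1 : ι → ZMod 2) l =
        (Pi.single i (1 : ZMod 2) : ι → ZMod 2) k * (A k i + A k j) +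
        (Pi.single j (1 : ZMod 2) : ι → ZMod 2) k * (A k i + A k j) := by
      intro k
      rw [h4 k, Pi.add_apply, add_mul]
    rw [Finset.sum_congr rfl fun k _ => h5 k, Finset.sum_add_distrib,
      sum_single_mul i (fun k => A k i + A k j), sum_single_mul j (fun k => A k i + A k j),
      hA1, hA1, zero_add, add_zero] at h3
    exact add_eq_zero_iff.1 h3
  have hA3 : ∀ i j, A i j = 1 →
      m ^ (e - 1) < (Finset.univ.filter fun l => A i l ≠ A j l).card := by
    intro i j hij
    have hne : i ≠ j := by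
      rintro rfl
      rw [hA1] at hij
      exact zero_ne_one hij
    have hx : ∀ k, xc J₀ (L (Pi.single i 1 + Pi.single j 1)) k =
        (Pi.single i (1 : ZMod 2) + Pi.single j 1 : ι → ZMod 2) k := by
      intro k
      rw [hLx]
    refine (hw _ (hLΛ (Pi.single i 1 + Pi.single j 1)) ⟨i, ?_⟩).trans_le
      (Finset.card_le_card ?_)
    · have h3 : xc J₀ (L (Pi.single i 1 + Pi.single j 1)) i = 1 := by
        rw [hx, Pi.add_apply, Pi.single_eq_same, Pi.single_eq_of_ne hne, add_zero]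
      have h4 : yc J₀ (L (Pi.single i 1 + Pi.single j 1)) i = 1 := by
        rw [hy2, hA1, hij, zero_add]
      unfold xc at h3
      unfold yc at h4
      split_ifs at h3 h4
      · exact ⟨h4, h3⟩
      · exact ⟨h3, h4⟩
    · intro k hk
      rw [Finset.mem_filter] at hk ⊢
      refine ⟨Finset.mem_univ _, fun heq => ?_⟩
      have hki : k ≠ i := by
        rintro rfl
        rw [hA1, hA2, hij] at heq
        exact zero_ne_one heq
      have hkj : k ≠ j := by
        rintro rfl
        rw [hA1, hij] at heq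
        exact one_ne_zero heq
      refine hk.2 (eq_zero_of J₀ _ k ?_ ?_)
      · rw [hx, Pi.add_apply, Pi.single_eq_of_ne hki, Pi.single_eq_of_ne hkj, add_zero]
      · rw [hy2, add_eq_zero_iff, hA2 k i, hA2 k j]
        exact heq
  obtain ⟨Y, hY⟩ := hm₀ m hm ι A hι hA1 hA2 hA3
  obtain ⟨Y', hY'⟩ := h2 ι A hA1 hA2 r Y hY j hj
  have hLinj : Function.Injective L := by
    intro v w h
    rw [← hLx v, ← hLx w, h]
  refine ⟨{i | ¬ (i ∈ J₀ ↔ i ∈ Y')}, ?_⟩
  have himg : LJ Λ {i | ¬ (i ∈ J₀ ↔ i ∈ Y')} = L '' Ker A Y' := by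
    ext l
    constructor
    · rintro ⟨hl, hl1, hl2⟩
      obtain ⟨v, rfl⟩ := hLs l hl
      refine ⟨v, ⟨fun i hi => ?_, fun i hi => ?_⟩, rfl⟩
      · have h3 : xc J₀ (L v) i = 0 := by
          unfold xc
          split_ifs with h4
          · exact hl1 i (fun h => hi (h.1 h4))
          · exact hl2 i (fun h => h ⟨fun h5 => absurd h5 h4, fun h5 => absurd h5 hi⟩)
        rw [hLx] at h3
        exact h3
      · rw [← hLy]
        unfold yc
        split_ifs with h4
        · exact hl2 i (fun h => h ⟨fun _ => hi, fun _ => h4⟩)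
        · exact hl1 i (fun h => h4 (h.2 hi))
    · rintro ⟨v, ⟨hv1, hv2⟩, rfl⟩
      refine ⟨hLΛ v, fun i hi => ?_, fun i hi => ?_⟩
      · have hi' : ¬ (i ∈ J₀ ↔ i ∈ Y') := hi
        by_cases h4 : i ∈ J₀
        · have h5 : i ∉ Y' := fun h => hi' ⟨fun _ => h, fun _ => h4⟩
          have h6 : xc J₀ (L v) i = 0 := by
            rw [hLx]
            exact hv1 i h5
          unfold xc at h6
          rwa [if_pos h4] at h6
        · have h5 : i ∈ Y' := by
            by_contra h
            exact hi' ⟨fun h5 => absurd h5 h4, fun h5 => absurd h5 h⟩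
          have h6 : yc J₀ (L v) i = 0 := by
            rw [hLy]
            exact hv2 i h5
          unfold yc at h6
          rwa [if_neg h4] at h6
      · have hi' : i ∈ J₀ ↔ i ∈ Y' := by
          by_contra h
          exact hi h
        by_cases h4 : i ∈ J₀
        · have h6 : yc J₀ (L v) i = 0 := by
            rw [hLy]
            exact hv2 i (hi'.1 h4)
          unfold yc at h6
          rwa [if_pos h4] at h6
        · have h6 : xc J₀ (L v) i = 0 := by
            rw [hLx]
            exact hv1 i (fun h => h4 (hi'.2 h))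
          unfold xc at h6
          rwa [if_neg h4] at h6
  rw [himg, Nat.card_image_of_injective hLinj, hY']

end

end Pool.Agent.H294.AR458
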