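import Pool.Agent.H294.AR458.FPTa
import Pool.Graph.R_seed8.H341R2.Stepanov

/-!
# Part FPT of project AR (helper458), helper294: character sums
-/

set_option autoImplicit false
set_option linter.all false

open Polynomial Finset

namespace Pool.Agent.H294.AR458

variable {p : ℕ} [Fact p.Prime]


theorem sum_lin (hp2 : p ≠ 2) (e : ZMod p) : ∑ x : ZMod p, (quadraticChar (ZMod p)) (x - e) = 0 := by
  have h1 : ∑ x : ZMod p, (quadraticChar (ZMod p)) (x - e) = ∑ x : ZMod p, (quadraticChar (ZMod p)) x :=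
    Fintype.sum_equiv (Equiv.subRight e) _ _ (fun x => rfl)
  rw [h1]
  exact quadraticChar_sum_zero (by rwa [ZMod.ringChar_zmod_n])

theorem chi_inv : ((quadraticChar (ZMod p)))⁻¹ = (quadraticChar (ZMod p)) := (quadraticChar_isQuadratic (ZMod p)).inv

theorem sum_quad (hp2 : p ≠ 2) {e1 e2 : ZMod p} (he : e1 ≠ e2) :
    ∑ x : ZMod p, (quadraticChar (ZMod p)) (x - e1) * (quadraticChar (ZMod p)) (x - e2) = -1 := by
  have hF : ringChar (ZMod p) ≠ 2 := by rwa [ZMod.ringChar_zmod_n]
  have hne : (quadraticChar (ZMod p)) ≠ 1 := quadraticChar_ne_one hF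
  have h0 : e2 - e1 ≠ 0 := sub_ne_zero.2 he.symm
  have h1 : ∑ x : ZMod p, (quadraticChar (ZMod p)) x * (quadraticChar (ZMod p)) (1 - x) = -(quadraticChar (ZMod p)) (-1) := by
    have := jacobiSum_nontrivial_inv hne
    rw [chi_inv] at this
    exact this
  have h2 : ∑ x : ZMod p, (quadraticChar (ZMod p)) (x - e1) * (quadraticChar (ZMod p)) (x - e2) =
      ∑ y : ZMod p, (quadraticChar (ZMod p)) (-1) * ((quadraticChar (ZMod p)) y * (quadraticChar (ZMod p)) (1 - y)) := by
    refine (Fintype.sum_equiv ((Equiv.mulLeft₀ (e2 - e1) h0).trans (Equiv.addRight e1)) _ _ ?_).symm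
    intro y
    simp only [Equiv.trans_apply, Equiv.mulLeft₀_apply, Equiv.coe_addRight]
    have e3 : (e2 - e1) * y + e1 - e1 = (e2 - e1) * y := by ring
    have e4 : (e2 - e1) * y + e1 - e2 = (e2 - e1) * ((-1) * (1 - y)) := by ring
    rw [e3, e4, map_mul, map_mul, map_mul]
    have h5 : (quadraticChar (ZMod p)) (e2 - e1) * (quadraticChar (ZMod p)) (e2 - e1) = 1 := by
      rw [← sq]
      exact quadraticChar_sq_one h0
    linear_combination (-((quadraticChar (ZMod p)) (-1) * ((quadraticChar (ZMod p)) y * (quadraticChar (ZMod p)) (1 - y)))) * h5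
  rw [h2, ← Finset.mul_sum, h1]
  have h6 : (quadraticChar (ZMod p)) (-1) * (quadraticChar (ZMod p)) (-1) = 1 := by
    rw [← sq]
    exact quadraticChar_sq_one (neg_ne_zero.2 one_ne_zero)
  linear_combination -h6

/-- a polynomial of degree three is not a constant times a square -/
theorem cub_ns (a b : ZMod p) (c : ZMod p) (g : (ZMod p)[X]) : cub a b ≠ C c * g ^ 2 := by
  intro h
  have h1 := cub_natDegree a b
  rw [h] at h1
  by_cases hc : c = 0
  · rw [hc] at h1
    simp at h1
  · rw [Polynomial.natDegree_C_mul hc, natDegree_pow] at h1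
    omega

/-- an irreducible polynomial of degree two is not a constant times a square -/
theorem qua_ns {c d : ZMod p} (hirr : Irreducible (qua c d)) (r : ZMod p) (g : (ZMod p)[X]) :
    qua c d ≠ C r * g ^ 2 := by
  intro h
  have h1 := qua_natDegree c d
  rw [h] at h1
  have hr : r ≠ 0 := by
    rintro rfl
    simp at h1
  rw [Polynomial.natDegree_C_mul hr, natDegree_pow] at h1
  have h2 : g.natDegree = 1 := by omega
  rw [h] at hirr
  have h3 : IsUnit (C r * g) ∨ IsUnit g := hirr.isUnit_or_isUnit (by ring)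
  rcases h3 with h3 | h3
  · have := natDegree_eq_zero_of_isUnit h3
    rw [Polynomial.natDegree_C_mul hr] at this
    omega
  · have := natDegree_eq_zero_of_isUnit h3
    omega

theorem weil (hp2 : p ≠ 2) (f : (ZMod p)[X]) (hd : 1 ≤ f.natDegree)
    (hns : ∀ (c : ZMod p) (h : (ZMod p)[X]), f ≠ C c * h ^ 2) :
    |((∑ x : ZMod p, (quadraticChar (ZMod p)) (f.eval x) : ℤ) : ℝ)| ≤ 5 * f.natDegree * Real.sqrt p := by
  have h := Pool.Agent.H341R2.weil_bound (F := ZMod p)
    (by rwa [ZMod.ringChar_zmod_n]) f hd hns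
  rw [ZMod.card] at h
  push_cast
  exact h

theorem chi_le (x : ZMod p) : (quadraticChar (ZMod p)) x ≤ 1 := by
  by_cases h0 : x = 0
  · simp [h0]
  · rcases quadraticChar_dichotomy h0 with h | h <;> simp [h]

theorem chi_abs (x : ZMod p) : |(quadraticChar (ZMod p)) x| ≤ 1 := by
  by_cases h0 : x = 0
  · simp [h0]
  · rcases quadraticChar_dichotomy h0 with h | h <;> simp [h]

theorem sum_one : ∑ x : ZMod p, (1 : ℤ) = p := by
  simp [ZMod.card]

theorem sqrt_bd (hp : 1000 ≤ p) : (31 : ℝ) * Real.sqrt p ≤ p ∧ (31 : ℝ) ≤ Real.sqrt p := by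
  have h1 : (31 : ℝ) ≤ Real.sqrt p := by
    apply Real.le_sqrt_of_sq_le
    have : (1000 : ℝ) ≤ p := by exact_mod_cast hp
    linarith
  have h2 : Real.sqrt p * Real.sqrt p = p := Real.mul_self_sqrt (by positivity)
  constructor
  · calc (31 : ℝ) * Real.sqrt p ≤ Real.sqrt p * Real.sqrt p := by gcongr
      _ = p := h2
  · exact h1

/-- three linear factors -/
theorem exists_three (hp : 1000 ≤ p) {a b e1 e2 e3 : ZMod p} (h12 : e1 ≠ e2) (h13 : e1 ≠ e3)
    (h23 : e2 ≠ e3) (hf : ∀ x : ZMod p, (cub a b).eval x = (x - e1) * (x - e2) * (x - e3))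
    {s1 s2 s3 : ℤ} (hs1 : |s1| = 1) (hs2 : |s2| = 1) (hs3 : |s3| = 1) (hs : s1 * s2 * s3 = 1) :
    ∃ x : ZMod p, (quadraticChar (ZMod p)) (x - e1) = s1 ∧ (quadraticChar (ZMod p)) (x - e2) = s2 ∧ (quadraticChar (ZMod p)) (x - e3) = s3 := by
  have hp2 : p ≠ 2 := by omega
  by_contra hcon
  push Not at hcon
  have hsq1 : s1 * s1 = 1 := by rw [← abs_mul_abs_self, hs1]; norm_num
  have hsq2 : s2 * s2 = 1 := by rw [← abs_mul_abs_self, hs2]; norm_num
  have hsq3 : s3 * s3 = 1 := by rw [← abs_mul_abs_self, hs3]; norm_num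
  have hfac : ∀ (s : ℤ) (y : ZMod p), |s| = 1 → y ≠ 0 → 1 + s * (quadraticChar (ZMod p)) y = 0 ∨ (quadraticChar (ZMod p)) y = s := by
    intro s y hs hy
    rcases quadraticChar_dichotomy hy with h | h <;> rcases (abs_eq (by norm_num : (0:ℤ) ≤ 1)).1 hs with h' | h' <;>
      rw [h, h'] <;> norm_num
  have hfle : ∀ (s : ℤ) (y : ZMod p), |s| = 1 → 0 ≤ 1 + s * (quadraticChar (ZMod p)) y ∧ 1 + s * (quadraticChar (ZMod p)) y ≤ 2 := by
    intro s y hs
    have h1 : |s * (quadraticChar (ZMod p)) y| ≤ 1 := by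
      rw [abs_mul, hs, one_mul]
      exact chi_abs y
    have := abs_le.1 h1
    constructor <;> linarith [this.1, this.2]
  set g : ZMod p → ℤ := fun x => (1 + s1 * (quadraticChar (ZMod p)) (x - e1)) * (1 + s2 * (quadraticChar (ZMod p)) (x - e2)) * (1 + s3 * (quadraticChar (ZMod p)) (x - e3)) with hg
  have hpt : ∀ x, g x ≤ (if x = e1 then 4 else 0) + (if x = e2 then 4 else 0) + (if x = e3 then 4 else 0) := by
    intro x
    obtain ⟨a1, a2⟩ := hfle s1 (x - e1) hs1
    obtain ⟨b1, b2⟩ := hfle s2 (x - e2) hs2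
    obtain ⟨c1, c2⟩ := hfle s3 (x - e3) hs3
    have hab : (1 + s1 * (quadraticChar (ZMod p)) (x - e1)) * (1 + s2 * (quadraticChar (ZMod p)) (x - e2)) ≤ 2 * 2 := mul_le_mul a2 b2 b1 (by norm_num)
    have hbc : (1 + s2 * (quadraticChar (ZMod p)) (x - e2)) * (1 + s3 * (quadraticChar (ZMod p)) (x - e3)) ≤ 2 * 2 := mul_le_mul b2 c2 c1 (by norm_num)
    have hac : (1 + s1 * (quadraticChar (ZMod p)) (x - e1)) * (1 + s3 * (quadraticChar (ZMod p)) (x - e3)) ≤ 2 * 2 := mul_le_mul a2 c2 c1 (by norm_num)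
    have i1 : (0:ℤ) ≤ if x = e1 then 4 else 0 := by split_ifs <;> norm_num
    have i2 : (0:ℤ) ≤ if x = e2 then 4 else 0 := by split_ifs <;> norm_num
    have i3 : (0:ℤ) ≤ if x = e3 then 4 else 0 := by split_ifs <;> norm_num
    by_cases x1 : x = e1
    · have : g x = (1 + s2 * (quadraticChar (ZMod p)) (x - e2)) * (1 + s3 * (quadraticChar (ZMod p)) (x - e3)) := by
        simp only [hg, x1, sub_self, MulChar.map_zero, mul_zero, add_zero, one_mul]
      rw [this, if_pos x1]
      linarith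
    by_cases x2 : x = e2
    · have : g x = (1 + s1 * (quadraticChar (ZMod p)) (x - e1)) * (1 + s3 * (quadraticChar (ZMod p)) (x - e3)) := by
        simp only [hg, x2, sub_self, MulChar.map_zero, mul_zero, add_zero, mul_one]
      rw [this, if_pos x2]
      linarith
    by_cases x3 : x = e3
    · have : g x = (1 + s1 * (quadraticChar (ZMod p)) (x - e1)) * (1 + s2 * (quadraticChar (ZMod p)) (x - e2)) := by
        simp only [hg, x3, sub_self, MulChar.map_zero, mul_zero, add_zero, mul_one]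
      rw [this, if_pos x3]
      linarith
    have h0 : g x = 0 := by
      rcases hfac s1 (x - e1) hs1 (sub_ne_zero.2 x1) with k1 | k1
      · simp only [hg, k1, zero_mul]
      rcases hfac s2 (x - e2) hs2 (sub_ne_zero.2 x2) with k2 | k2
      · simp only [hg, k2, mul_zero, zero_mul]
      rcases hfac s3 (x - e3) hs3 (sub_ne_zero.2 x3) with k3 | k3
      · simp only [hg, k3, mul_zero]
      exact absurd k3 (hcon x k1 k2)
    rw [h0]
    linarith
  have hsum : ∑ x, g x ≤ 12 := by
    calc ∑ x, g x ≤ ∑ x : ZMod p, ((if x = e1 then (4:ℤ) else 0) + (if x = e2 then 4 else 0) +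
          (if x = e3 then 4 else 0)) := Finset.sum_le_sum (fun x _ => hpt x)
      _ = 12 := by
          rw [Finset.sum_add_distrib, Finset.sum_add_distrib]
          simp
  have hexp : ∑ x, g x = p + s1 * ∑ x : ZMod p, (quadraticChar (ZMod p)) (x - e1) + s2 * ∑ x : ZMod p, (quadraticChar (ZMod p)) (x - e2) +
      s3 * ∑ x : ZMod p, (quadraticChar (ZMod p)) (x - e3) + s1 * s2 * ∑ x : ZMod p, (quadraticChar (ZMod p)) (x - e1) * (quadraticChar (ZMod p)) (x - e2) +
      s1 * s3 * ∑ x : ZMod p, (quadraticChar (ZMod p)) (x - e1) * (quadraticChar (ZMod p)) (x - e3) + s2 * s3 * ∑ x : ZMod p, (quadraticChar (ZMod p)) (x - e2) * (quadraticChar (ZMod p)) (x - e3) +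
      ∑ x : ZMod p, (quadraticChar (ZMod p)) ((cub a b).eval x) := by
    rw [← sum_one (p := p)]
    simp only [Finset.mul_sum, ← Finset.sum_add_distrib]
    refine Finset.sum_congr rfl (fun x _ => ?_)
    rw [hf, map_mul, map_mul]
    simp only [hg]
    linear_combination ((quadraticChar (ZMod p)) (x - e1) * (quadraticChar (ZMod p)) (x - e2) * (quadraticChar (ZMod p)) (x - e3)) * hs
  rw [sum_lin hp2, sum_lin hp2, sum_lin hp2, sum_quad hp2 h12, sum_quad hp2 h13, sum_quad hp2 h23] at hexp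
  have hW := weil hp2 (cub a b) (by rw [cub_natDegree]; norm_num) (cub_ns a b)
  rw [cub_natDegree] at hW
  obtain ⟨hb1, hb2⟩ := sqrt_bd hp
  have hle : s1 * s2 + s1 * s3 + s2 * s3 ≤ 3 := by
    have k1 : s1 * s2 ≤ 1 := by nlinarith [sq_nonneg (s1 - s2)]
    have k2 : s1 * s3 ≤ 1 := by nlinarith [sq_nonneg (s1 - s3)]
    have k3 : s2 * s3 ≤ 1 := by nlinarith [sq_nonneg (s2 - s3)]
    linarith
  have hint : (p : ℤ) + ∑ x : ZMod p, (quadraticChar (ZMod p)) ((cub a b).eval x) ≤ 15 := by linarith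
  have hreal : (p : ℝ) + ((∑ x : ZMod p, (quadraticChar (ZMod p)) ((cub a b).eval x) : ℤ) : ℝ) ≤ 15 := by exact_mod_cast hint
  have hW' := (abs_le.1 hW).1
  push_cast at hW' hreal
  linarith

/-- one double linear factor -/
theorem exists_two (hp : 1000 ≤ p) {c d : ZMod p} (hcd : c ≠ d) {s : ℤ} (hs : |s| = 1) :
    ∃ x : ZMod p, (quadraticChar (ZMod p)) (x - c) = s ∧ (quadraticChar (ZMod p)) (x - d) = 1 := by
  have hp2 : p ≠ 2 := by omega
  by_contra hcon
  push Not at hcon
  have hpt : ∀ x : ZMod p, (1 + s * (quadraticChar (ZMod p)) (x - c)) * (1 + (quadraticChar (ZMod p)) (x - d)) ≤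
      (if x = c then 2 else 0) + (if x = d then 2 else 0) := by
    intro x
    have h1 : |s * (quadraticChar (ZMod p)) (x - c)| ≤ 1 := by
      rw [abs_mul, hs, one_mul]
      exact chi_abs _
    have h1' := abs_le.1 h1
    have h2 := abs_le.1 (chi_abs (x - d))
    have i1 : (0:ℤ) ≤ if x = c then 2 else 0 := by split_ifs <;> norm_num
    have i2 : (0:ℤ) ≤ if x = d then 2 else 0 := by split_ifs <;> norm_num
    by_cases x1 : x = c
    · rw [if_pos x1, x1, sub_self, MulChar.map_zero, mul_zero, add_zero, one_mul, ← x1]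
      linarith [h2.2]
    by_cases x2 : x = d
    · rw [if_pos x2]
      have : (quadraticChar (ZMod p)) (x - d) = 0 := by rw [x2, sub_self, MulChar.map_zero]
      rw [this, add_zero, mul_one]
      linarith [h1'.2]
    have h0 : (1 + s * (quadraticChar (ZMod p)) (x - c)) * (1 + (quadraticChar (ZMod p)) (x - d)) = 0 := by
      rcases quadraticChar_dichotomy (sub_ne_zero.2 x2) with h | h
      · have h3 : (quadraticChar (ZMod p)) (x - c) ≠ s := fun h' => hcon x h' h
        rcases quadraticChar_dichotomy (sub_ne_zero.2 x1) with h' | h' <;>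
          rcases (abs_eq (by norm_num : (0:ℤ) ≤ 1)).1 hs with h'' | h''
        · exact absurd (h'.trans h''.symm) h3
        · rw [h', h'']; norm_num
        · rw [h', h'']; norm_num
        · exact absurd (h'.trans h''.symm) h3
      · rw [h]; norm_num
    rw [h0]
    linarith
  have hsum : ∑ x : ZMod p, (1 + s * (quadraticChar (ZMod p)) (x - c)) * (1 + (quadraticChar (ZMod p)) (x - d)) ≤ 4 := by
    calc ∑ x : ZMod p, (1 + s * (quadraticChar (ZMod p)) (x - c)) * (1 + (quadraticChar (ZMod p)) (x - d)) ≤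
        ∑ x : ZMod p, ((if x = c then (2:ℤ) else 0) + (if x = d then 2 else 0)) :=
          Finset.sum_le_sum (fun x _ => hpt x)
      _ = 4 := by
          rw [Finset.sum_add_distrib]
          simp
  have hexp : ∑ x : ZMod p, (1 + s * (quadraticChar (ZMod p)) (x - c)) * (1 + (quadraticChar (ZMod p)) (x - d)) =
      p + s * ∑ x : ZMod p, (quadraticChar (ZMod p)) (x - c) + ∑ x : ZMod p, (quadraticChar (ZMod p)) (x - d) +
      s * ∑ x : ZMod p, (quadraticChar (ZMod p)) (x - c) * (quadraticChar (ZMod p)) (x - d) := by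
    rw [← sum_one (p := p)]
    simp only [Finset.mul_sum, ← Finset.sum_add_distrib]
    refine Finset.sum_congr rfl (fun x _ => ?_)
    ring
  rw [sum_lin hp2, sum_lin hp2, sum_quad hp2 hcd] at hexp
  have h1 := (abs_le.1 hs.le).2
  have : (1000 : ℤ) ≤ p := by exact_mod_cast hp
  linarith

/-- one linear and one irreducible quadratic factor -/
theorem exists_linq (hp : 1000 ≤ p) {a b e : ZMod p} {q : (ZMod p)[X]} (hq2 : q.natDegree = 2)
    (hns : ∀ (c : ZMod p) (h : (ZMod p)[X]), q ≠ C c * h ^ 2) (hq0 : ∀ x, q.eval x ≠ 0)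
    (hf : ∀ x : ZMod p, (cub a b).eval x = (x - e) * q.eval x) {s : ℤ} (hs : |s| = 1) :
    ∃ x : ZMod p, (quadraticChar (ZMod p)) (x - e) = s ∧ (quadraticChar (ZMod p)) (q.eval x) = s := by
  have hp2 : p ≠ 2 := by omega
  by_contra hcon
  push Not at hcon
  have hss : s * s = 1 := by rw [← abs_mul_abs_self, hs]; norm_num
  have hpt : ∀ x : ZMod p, (1 + s * (quadraticChar (ZMod p)) (x - e)) * (1 + s * (quadraticChar (ZMod p)) (q.eval x)) ≤ (if x = e then 2 else 0) := by
    intro x
    have h2 : |s * (quadraticChar (ZMod p)) (q.eval x)| ≤ 1 := by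
      rw [abs_mul, hs, one_mul]
      exact chi_abs _
    have h2' := abs_le.1 h2
    by_cases x1 : x = e
    · rw [if_pos x1]
      have : (quadraticChar (ZMod p)) (x - e) = 0 := by rw [x1, sub_self, MulChar.map_zero]
      rw [this, mul_zero, add_zero, one_mul]
      linarith [h2'.2]
    · rw [if_neg x1]
      apply le_of_eq
      rcases quadraticChar_dichotomy (hq0 x) with h | h <;>
      rcases quadraticChar_dichotomy (sub_ne_zero.2 x1) with h' | h' <;>
          rcases (abs_eq (by norm_num : (0:ℤ) ≤ 1)).1 hs with h'' | h'' <;>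
          first
          | exact absurd (h.trans h''.symm) (hcon x (h'.trans h''.symm))
          | (rw [h, h', h'']; norm_num)
  have hsum : ∑ x : ZMod p, (1 + s * (quadraticChar (ZMod p)) (x - e)) * (1 + s * (quadraticChar (ZMod p)) (q.eval x)) ≤ 2 := by
    calc ∑ x : ZMod p, (1 + s * (quadraticChar (ZMod p)) (x - e)) * (1 + s * (quadraticChar (ZMod p)) (q.eval x)) ≤
        ∑ x : ZMod p, (if x = e then (2:ℤ) else 0) := Finset.sum_le_sum (fun x _ => hpt x)
      _ = 2 := by simp
  have hexp : ∑ x : ZMod p, (1 + s * (quadraticChar (ZMod p)) (x - e)) * (1 + s * (quadraticChar (ZMod p)) (q.eval x)) =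
      p + s * ∑ x : ZMod p, (quadraticChar (ZMod p)) (x - e) + s * ∑ x : ZMod p, (quadraticChar (ZMod p)) (q.eval x) +
      ∑ x : ZMod p, (quadraticChar (ZMod p)) ((cub a b).eval x) := by
    rw [← sum_one (p := p)]
    simp only [Finset.mul_sum, ← Finset.sum_add_distrib]
    refine Finset.sum_congr rfl (fun x _ => ?_)
    rw [hf, map_mul]
    linear_combination ((quadraticChar (ZMod p)) (x - e) * (quadraticChar (ZMod p)) (q.eval x)) * hss
  rw [sum_lin hp2] at hexp
  have hW := weil hp2 (cub a b) (by rw [cub_natDegree]; norm_num) (cub_ns a b)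
  rw [cub_natDegree] at hW
  have hW2 := weil hp2 q (by rw [hq2]; norm_num) hns
  rw [hq2] at hW2
  obtain ⟨hb1, hb2⟩ := sqrt_bd hp
  have hint : (p : ℤ) + s * ∑ x : ZMod p, (quadraticChar (ZMod p)) (q.eval x) + ∑ x : ZMod p, (quadraticChar (ZMod p)) ((cub a b).eval x) ≤ 2 := by
    linarith
  have hreal : (p : ℝ) + (s : ℝ) * ((∑ x : ZMod p, (quadraticChar (ZMod p)) (q.eval x) : ℤ) : ℝ) +
      ((∑ x : ZMod p, (quadraticChar (ZMod p)) ((cub a b).eval x) : ℤ) : ℝ) ≤ 2 := by exact_mod_cast hint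
  have hW' := (abs_le.1 hW).1
  have hsr : |(s : ℝ)| = 1 := by
    rw [← Int.cast_abs, hs, Int.cast_one]
  have hW3 : |(s : ℝ) * ((∑ x : ZMod p, (quadraticChar (ZMod p)) (q.eval x) : ℤ) : ℝ)| ≤ 5 * ((2 : ℕ) : ℝ) * Real.sqrt p := by
    rw [abs_mul, hsr, one_mul]
    exact hW2
  have hW3' := (abs_le.1 hW3).1
  push_cast at hW' hreal hW3'
  linarith

end Pool.Agent.H294.AR458
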