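import Mathlib

/-!
# Part FPT of project AR (helper458), helper294: norms in `F[X]/(f)`, `f` a cubic or a quadratic polynomial
-/

set_option autoImplicit false
set_option linter.all false

open Polynomial

namespace Pool.Agent.H294.AR458

variable {F : Type} [Field F]

/-- the cubic polynomial -/
noncomputable abbrev cub (a b : F) : F[X] := X ^ 3 + C a * X + C b

/-- the quadratic polynomial -/
noncomputable abbrev qua (c d : F) : F[X] := X ^ 2 + C c * X + C d

theorem cub_natDegree (a b : F) : (cub a b).natDegree = 3 := by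
  unfold cub
  compute_degree!

theorem cub_monic (a b : F) : (cub a b).Monic := by
  unfold cub
  monicity!

theorem qua_natDegree (c d : F) : (qua c d).natDegree = 2 := by
  unfold qua
  compute_degree!

theorem qua_monic (c d : F) : (qua c d).Monic := by
  unfold qua
  monicity!

/-- the norm of a polynomial of degree at most two modulo a cubic polynomial -/
theorem norm_cub (a b r0 r1 r2 : F) :
    Algebra.norm F (AdjoinRoot.mk (cub a b) (C r2 * X ^ 2 + C r1 * X + C r0)) =
      r0 * ((r0 - a * r2) ^ 2 + r1 * (a * r1 + b * r2)) +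
      b * r2 * (r1 * (r0 - a * r2) + r2 * (a * r1 + b * r2)) -
      b * r1 * (r1 ^ 2 - r2 * (r0 - a * r2)) := by
  have hm : (cub a b).Monic := cub_monic a b
  have hd : (cub a b).natDegree = 3 := cub_natDegree a b
  obtain ⟨f, hf⟩ : ∃ f, f = cub a b := ⟨_, rfl⟩
  rw [← hf] at hm hd ⊢
  let bas : Module.Basis (Fin 3) F (AdjoinRoot f) :=
    (AdjoinRoot.powerBasis' hm).basis.reindex (finCongr (by rw [AdjoinRoot.powerBasis'_dim, hd]))
  set x := AdjoinRoot.root f with hx
  have hb : ∀ i, bas i = x ^ (i : ℕ) := by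
    intro i
    rw [Module.Basis.reindex_apply, PowerBasis.coe_basis]
    rfl
  have hroot : x ^ 3 + AdjoinRoot.of f a * x + AdjoinRoot.of f b = 0 := by
    have h1 : ∀ g : F[X], g = f → g.eval₂ (AdjoinRoot.of f) x = 0 := by
      rintro g rfl
      exact AdjoinRoot.eval₂_root g
    have h2 := h1 (X ^ 3 + C a * X + C b) hf.symm
    simpa using h2
  have hx3 : x ^ 3 = -(AdjoinRoot.of f a * x) - AdjoinRoot.of f b := by linear_combination hroot
  have hmk : AdjoinRoot.mk f (C r2 * X ^ 2 + C r1 * X + C r0) =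
      AdjoinRoot.of f r2 * x ^ 2 + AdjoinRoot.of f r1 * x + AdjoinRoot.of f r0 := by
    simp [hx]
  let T : Matrix (Fin 3) (Fin 3) F :=
    !![r0, -(b * r2), -(b * r1); r1, r0 - a * r2, -(a * r1) - b * r2; r2, r1, r0 - a * r2]
  have hsm : ∀ (c : F) (z : AdjoinRoot f), c • z = AdjoinRoot.of f c * z := by
    intro c z
    rw [Algebra.smul_def]
    rfl
  have key : ∀ j, AdjoinRoot.mk f (C r2 * X ^ 2 + C r1 * X + C r0) * bas j = ∑ i, T i j • bas i := by
    intro j
    rw [hmk, Fin.sum_univ_three, hb, hb, hb, hb, hsm, hsm, hsm]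
    fin_cases j
    · simp [T]
      ring
    · simp [T]
      linear_combination (AdjoinRoot.of f r2) * hx3
    · simp [T]
      linear_combination (AdjoinRoot.of f r2 * x + AdjoinRoot.of f r1) * hx3
  have hT : Algebra.leftMulMatrix bas (AdjoinRoot.mk f (C r2 * X ^ 2 + C r1 * X + C r0)) = T := by
    ext i j
    rw [Algebra.leftMulMatrix_eq_repr_mul, key]
    exact congrFun (bas.repr_sum_self (fun i => T i j)) i
  rw [Algebra.norm_eq_matrix_det bas, hT, Matrix.det_fin_three]
  simp [T]
  ring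

/-- the norm of a polynomial of degree at most one modulo a quadratic polynomial -/
theorem norm_qua (c d u v : F) :
    Algebra.norm F (AdjoinRoot.mk (qua c d) (C v * X + C u)) = u ^ 2 - c * u * v + d * v ^ 2 := by
  have hm : (qua c d).Monic := qua_monic c d
  have hd : (qua c d).natDegree = 2 := qua_natDegree c d
  obtain ⟨f, hf⟩ : ∃ f, f = qua c d := ⟨_, rfl⟩
  rw [← hf] at hm hd ⊢
  let bas : Module.Basis (Fin 2) F (AdjoinRoot f) :=
    (AdjoinRoot.powerBasis' hm).basis.reindex (finCongr (by rw [AdjoinRoot.powerBasis'_dim, hd]))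
  set x := AdjoinRoot.root f with hx
  have hb : ∀ i, bas i = x ^ (i : ℕ) := by
    intro i
    rw [Module.Basis.reindex_apply, PowerBasis.coe_basis]
    rfl
  have hroot : x ^ 2 + AdjoinRoot.of f c * x + AdjoinRoot.of f d = 0 := by
    have h1 : ∀ g : F[X], g = f → g.eval₂ (AdjoinRoot.of f) x = 0 := by
      rintro g rfl
      exact AdjoinRoot.eval₂_root g
    have h2 := h1 (X ^ 2 + C c * X + C d) hf.symm
    simpa using h2
  have hx2 : x ^ 2 = -(AdjoinRoot.of f c * x) - AdjoinRoot.of f d := by linear_combination hroot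
  have hmk : AdjoinRoot.mk f (C v * X + C u) = AdjoinRoot.of f v * x + AdjoinRoot.of f u := by
    simp [hx]
  let T : Matrix (Fin 2) (Fin 2) F := !![u, -(d * v); v, u - c * v]
  have hsm : ∀ (c : F) (z : AdjoinRoot f), c • z = AdjoinRoot.of f c * z := by
    intro c z
    rw [Algebra.smul_def]
    rfl
  have key : ∀ j, AdjoinRoot.mk f (C v * X + C u) * bas j = ∑ i, T i j • bas i := by
    intro j
    rw [hmk, Fin.sum_univ_two, hb, hb, hb, hsm, hsm]
    fin_cases j
    · simp [T]
      ring
    · simp [T]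
      linear_combination (AdjoinRoot.of f v) * hx2
  have hT : Algebra.leftMulMatrix bas (AdjoinRoot.mk f (C v * X + C u)) = T := by
    ext i j
    rw [Algebra.leftMulMatrix_eq_repr_mul, key]
    exact congrFun (bas.repr_sum_self (fun i => T i j)) i
  rw [Algebra.norm_eq_matrix_det bas, hT, Matrix.det_fin_two]
  simp [T]
  ring

/-- reduction modulo the cubic polynomial -/
theorem exists_rep (a b : F) (h : F[X]) : ∃ r0 r1 r2 : F, ∃ k : F[X],
    h = C r2 * X ^ 2 + C r1 * X + C r0 + cub a b * k := by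
  have hm := cub_monic a b
  have h1 := Polynomial.modByMonic_add_div h (cub a b)
  have h2 : (h %ₘ cub a b).degree < 3 := by
    have := Polynomial.degree_modByMonic_lt h hm
    rwa [Polynomial.degree_eq_natDegree hm.ne_zero, cub_natDegree] at this
  have h3 : (h %ₘ cub a b).degree ≤ 2 := by
    have h4 : (h %ₘ cub a b).degree ≤ ((2 : ℕ) : WithBot ℕ) := by
      rw [degree_le_iff_coeff_zero]
      intro m hm
      apply coeff_eq_zero_of_degree_lt
      refine h2.trans_le ?_
      have : (3 : ℕ) ≤ m := by exact_mod_cast hm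
      exact_mod_cast this
    exact h4
  refine ⟨(h %ₘ cub a b).coeff 0, (h %ₘ cub a b).coeff 1, (h %ₘ cub a b).coeff 2, h /ₘ cub a b, ?_⟩
  rw [← Polynomial.eq_quadratic_of_degree_le_two h3]
  exact h1.symm

/-- the norm if the cubic polynomial has three zeros -/
theorem norm_split {a b e1 e2 e3 : F} (h0 : e1 + e2 + e3 = 0) (h1 : a = e1 * e2 + e1 * e3 + e2 * e3)
    (h2 : b = -(e1 * e2 * e3)) (h : F[X]) :
    Algebra.norm F (AdjoinRoot.mk (cub a b) h) = h.eval e1 * h.eval e2 * h.eval e3 := by
  obtain ⟨r0, r1, r2, k, hk⟩ := exists_rep a b h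
  have e3' : e3 = -e1 - e2 := by linear_combination h0
  have hmk : AdjoinRoot.mk (cub a b) h = AdjoinRoot.mk (cub a b) (C r2 * X ^ 2 + C r1 * X + C r0) := by
    rw [AdjoinRoot.mk_eq_mk, hk]
    exact ⟨k, by ring⟩
  rw [hmk, norm_cub, hk]
  simp only [eval_add, eval_mul, eval_C, eval_pow, eval_X, cub]
  subst e3'
  subst h1
  subst h2
  ring

/-- the norm if the cubic polynomial has a zero -/
theorem norm_lin {a b e : F} (h2 : b = -(e ^ 3 + a * e)) (h : F[X]) :
    Algebra.norm F (AdjoinRoot.mk (cub a b) h) =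
      h.eval e * Algebra.norm F (AdjoinRoot.mk (qua e (e ^ 2 + a)) h) := by
  obtain ⟨r0, r1, r2, k, hk⟩ := exists_rep a b h
  have hmk : AdjoinRoot.mk (cub a b) h = AdjoinRoot.mk (cub a b) (C r2 * X ^ 2 + C r1 * X + C r0) := by
    rw [AdjoinRoot.mk_eq_mk, hk]
    exact ⟨k, by ring⟩
  have hmk2 : AdjoinRoot.mk (qua e (e ^ 2 + a)) h =
      AdjoinRoot.mk (qua e (e ^ 2 + a)) (C (r1 - e * r2) * X + C (r0 - (e ^ 2 + a) * r2)) := by
    rw [AdjoinRoot.mk_eq_mk, hk]
    refine ⟨C r2 + (X - C e) * k, ?_⟩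
    subst h2
    simp only [cub, qua, map_add, map_sub, map_mul, map_pow, map_neg]
    ring
  rw [hmk, norm_cub, hmk2, norm_qua, hk]
  simp only [eval_add, eval_mul, eval_C, eval_pow, eval_X, cub]
  subst h2
  ring

end Pool.Agent.H294.AR458
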